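import Pool.Agent.X76.Det5
import Pool.Agent.TH525.FRG.Hom

set_option autoImplicit false

/-!
Linear arboricity and Hamilton decompositions of regular graphs of even degree with large
homogeneous classes.

Proof idea.  Contract every class to a vertex of weight `g` = its size; the result is a multigraph
with `g u * g v` edges between adjacent classes and `g u * (g u - 1) / 2` loops at complete classes.
Orient it balancedly, with at least `D` edges in one direction between any two adjacent classes
(Hoffman's circulation theorem), and decompose the orientation into `D` balanced parts (again by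
Hoffman's theorem); every part contains all adjacent pairs of classes, hence is connected, and has
degree `2 g`.  Then the vertices are split off one by one: the new vertex receives two edges of
every part, at most one of them from any component (of the part without the vertex that is split)
attached by two edges, and the right number of edges to every other vertex; such a choice exists by
Hoffman's theorem, and it keeps the parts connected.  In the end the parts are Hamilton cycles.  A
linear forest with one edge from each Hamilton cycle is found greedily.
-/

namespace Pool.Agent.Results.MP_0a041d_co.HomogeneousClasses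

open SimpleGraph H931R3.LA

/-- **Linear arboricity of regular graphs with large homogeneous classes.**  Let `X` be a finite
`2D`-regular graph, `D ≥ 1`, whose vertices are divided into classes (the fibres of `f`) such that
the adjacency of two different vertices depends only on their classes (so every class is complete or
independent, and two classes are completely joined or not joined at all).  Suppose that

* `|P| |Q| ≥ 2 D` for any two different classes `P`, `Q` that are joined, or
* all classes have the same size `m`, `m² ≥ D`, and every class is joined to an even number of other
  classes.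

Then

* the linear arboricity of `X` is `⌈(2 D + 1) / 2⌉ = D + 1`;
* the same holds for every `2D`-regular nonempty finite graph `Z` with a locally injective
  homomorphism to `X`;
* if `X` is connected then the edges of `X` are partitioned into `D` Hamilton cycles: the `j`-th
  cycle is the cyclic sequence `F j`, which contains every vertex once. -/
theorem result :
    ∀ (W V : Type) [Finite W] [Nonempty W] (X : SimpleGraph W) (f : W → V) (D : ℕ),
      0 < D → (∀ x, (X.neighborSet x).ncard = 2 * D) →
      (∀ x y x' y', f x = f x' → f y = f y' → x ≠ y → x' ≠ y' → X.Adj x y → X.Adj x' y') →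
      ((∀ x y, X.Adj x y → f x ≠ f y →
          2 * D ≤ {z | f z = f x}.ncard * {z | f z = f y}.ncard) ∨
        (∃ m, (∀ x, {z | f z = f x}.ncard = m) ∧ D ≤ m ^ 2 ∧
          ∀ x, Even {v | v ≠ f x ∧ ∃ y, f y = v ∧ X.Adj x y}.ncard)) →
      la X = D + 1 ∧
      (∀ (Z : Type) [Finite Z] [Nonempty Z] (Y : SimpleGraph Z) (h : Z → W),
        (∀ a b, Y.Adj a b → X.Adj (h a) (h b)) →
        (∀ a b c, Y.Adj a b → Y.Adj a c → h b = h c → b = c) →
        (∀ a, (Y.neighborSet a).ncard = 2 * D) → la Y = D + 1) ∧
      (X.Connected → ∃ F : Fin D → ZMod (Nat.card W) → W,
        (∀ j, Function.Bijective (F j)) ∧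
        (∀ j s, X.Adj (F j s) (F j (s + 1))) ∧
        ∀ x y, X.Adj x y → ∃! p : Fin D × ZMod (Nat.card W),
          s(F p.1 p.2, F p.1 (p.2 + 1)) = s(x, y)) := by
  intro W V _ _ X f D hD hdeg H hB
  have hB' : X76.Det.Big X f (2 * D) := by
    rcases hB with h | ⟨m, h1, h2, h3⟩
    · exact Or.inl h
    · exact Or.inr ⟨m, h1, by omega, h3⟩
  have hcov : Cov X (D + 1) := (X76.Det.rank X f H D hD hdeg hB').cov
  have he : (2 * D + 2) / 2 = D + 1 := by omega
  refine ⟨?_, ?_, fun hconn => ?_⟩
  · have h1 := lower (r := 2 * D) (by omega) (cov_la X) hdeg
    rw [he] at h1
    exact le_antisymm (la_le hcov) h1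
  · intro Z _ _ Y h hhom hinj hreg
    have h1 := lower (r := 2 * D) (by omega) (cov_la Y) hreg
    rw [he] at h1
    exact le_antisymm (la_le (TH525.FRG.cov_hom Y X h hhom hinj _ hcov)) h1
  · have iW := Fintype.ofFinite W
    rw [Nat.card_eq_fintype_card]
    obtain ⟨F, hF1, hF2, hF3⟩ := X76.Det.conn_HD' X hconn f H D hdeg hB'
    exact ⟨F, hF1, hF2, hF3⟩

end Pool.Agent.Results.MP_0a041d_co.HomogeneousClasses
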