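import Pool.Agent.X76.Det10
import Pool.Agent.TH525.FRG.Hom

set_option autoImplicit false

/-!
Linear arboricity of graphs with large homogeneous classes, without any regularity assumption.

Proof idea.  Let all degrees be less than `2 L`.  We may assume that the graph is connected.  Add a
vertex `z` joined to every vertex by as many edges as are missing to degree `2 L`, and contract every
class `P` to a vertex of weight `|P|`: the result is a multigraph.  Orient it balancedly, with at
least `L` edges in one direction between any two joined classes, and decompose the orientation into
`L` balanced parts, using Hoffman's circulation theorem twice; the total number of edges at `z` in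
one part depends on the part, but every part contains all joined pairs of classes and an edge at
`z`, and has degree `2 |P|` at the class `P`.  Then all vertices but `z` are split into single
vertices one by one; the new vertex receives two edges of every part, at most one of them from any
component (of the part without the vertex that is split) attached by two edges, and the right number
of edges to every other vertex; such a choice exists by Hoffman's theorem and it keeps the parts
connected.  In the end every part is connected with all degrees 2 except at `z`, so the deletion of
`z` leaves a linear forest.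
-/

namespace Pool.Agent.Results.MP_0a041d_co.OddDegreeClasses

open SimpleGraph H931R3.LA

/-- **Linear arboricity of graphs with large homogeneous classes.**  Let `X` be a finite graph with
all degrees less than `2 L`, whose vertices are divided into classes (the fibres of `f`) such that
the adjacency of two different vertices depends only on their classes (so every class is complete or
independent, and two classes are completely joined or not joined at all).  Suppose that
`|P| |Q| ≥ 2 L` for any two different classes `P`, `Q` that are joined.  Then the linear arboricity
of `X` is at most `L`, and the same holds for every finite graph `Y` with a locally injective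
homomorphism to `X`.  (With `L = ⌈(Δ + 1) / 2⌉` this is the bound of the linear arboricity
conjecture.)

In particular, if `X` is `R`-regular and nonempty, `R ≥ 1`, and `|P| |Q| ≥ 2 ⌈(R + 1) / 2⌉` for any
two different classes that are joined (for odd `R` this means `|P| |Q| ≥ R + 1`), then the linear
arboricity of `X`, and of all nonempty finite `R`-regular graphs with a locally injective
homomorphism to `X`, is exactly `⌈(R + 1) / 2⌉`. -/
theorem result :
    (∀ (W V : Type) [Finite W] (X : SimpleGraph W) (f : W → V) (L : ℕ),
      (∀ x, (X.neighborSet x).ncard < 2 * L) →
      (∀ x y x' y', f x = f x' → f y = f y' → x ≠ y → x' ≠ y' → X.Adj x y → X.Adj x' y') →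
      (∀ x y, X.Adj x y → f x ≠ f y →
        2 * L ≤ {z | f z = f x}.ncard * {z | f z = f y}.ncard) →
      la X ≤ L ∧
      ∀ (Z : Type) [Finite Z] (Y : SimpleGraph Z) (h : Z → W),
        (∀ a b, Y.Adj a b → X.Adj (h a) (h b)) →
        (∀ a b c, Y.Adj a b → Y.Adj a c → h b = h c → b = c) → la Y ≤ L) ∧
    (∀ (W V : Type) [Finite W] [Nonempty W] (X : SimpleGraph W) (f : W → V) (R : ℕ),
      0 < R → (∀ x, (X.neighborSet x).ncard = R) →
      (∀ x y x' y', f x = f x' → f y = f y' → x ≠ y → x' ≠ y' → X.Adj x y → X.Adj x' y') →
      (∀ x y, X.Adj x y → f x ≠ f y →
        2 * ((R + 2) / 2) ≤ {z | f z = f x}.ncard * {z | f z = f y}.ncard) →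
      la X = (R + 2) / 2 ∧
      ∀ (Z : Type) [Finite Z] [Nonempty Z] (Y : SimpleGraph Z) (h : Z → W),
        (∀ a b, Y.Adj a b → X.Adj (h a) (h b)) →
        (∀ a b c, Y.Adj a b → Y.Adj a c → h b = h c → b = c) →
        (∀ a, (Y.neighborSet a).ncard = R) → la Y = (R + 2) / 2) := by
  have hA : ∀ (W V : Type) [Finite W] (X : SimpleGraph W) (f : W → V) (L : ℕ),
      (∀ x, (X.neighborSet x).ncard < 2 * L) →
      (∀ x y x' y', f x = f x' → f y = f y' → x ≠ y → x' ≠ y' → X.Adj x y → X.Adj x' y') →
      (∀ x y, X.Adj x y → f x ≠ f y →
        2 * L ≤ {z | f z = f x}.ncard * {z | f z = f y}.ncard) → Cov X L := by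
    intro W V _ X f L hdeg H hB
    exact (X76.Det.rank_gen X f H L hdeg hB).cov
  refine ⟨?_, ?_⟩
  · intro W V _ X f L hdeg H hB
    have hcov := hA W V X f L hdeg H hB
    exact ⟨la_le hcov, fun Z _ Y h hhom hinj => la_le (TH525.FRG.cov_hom Y X h hhom hinj _ hcov)⟩
  · intro W V _ _ X f R hR hdeg H hB
    have hcov := hA W V X f ((R + 2) / 2) (fun x => by rw [hdeg x]; omega) H hB
    refine ⟨?_, ?_⟩
    · have h1 := lower (r := R) hR (cov_la X) hdeg
      exact le_antisymm (la_le hcov) h1
    · intro Z _ _ Y h hhom hinj hreg
      have h1 := lower (r := R) hR (cov_la Y) hreg
      exact le_antisymm (la_le (TH525.FRG.cov_hom Y X h hhom hinj _ hcov)) h1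

end Pool.Agent.Results.MP_0a041d_co.OddDegreeClasses
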